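import Mathlib
import Pool.Agent.R355.NineO
import Pool.Agent.TH167.SH.Segre2
import Pool.Agent.TH167.SH.Defs

set_option autoImplicit false

/-!
# The conjecture of Segre for classes of large self-intersection

Let `L = L_d (m 1, …, m n)` be a linear system with general base points, let `T` be any nine of the
points and let `q` be the sum of the multiplicities at the other points. The nine multiplicities at
the points of `T` are arbitrary.

* If the self-intersection satisfies `d ^ 2 - ∑ m i ^ 2 ≥ 63 q ^ 2`, then the conjecture holds for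
  `L`: if `L` is special then there is a `(-1)`-curve whose square divides all members of `L`;
  moreover `L` is special if and only if it is `(-1)`-special.
* If `L` is standard (the sum of any three multiplicities is at most `d`), then the weaker
  inequality `d ^ 2 - ∑ i ∈ T, m i ^ 2 ≥ 63 q ^ 2` implies that the conditions are independent.

For `q = 0` this is the classical theorem on nine points. The proof: for general points there are
irreducible curves of degree one on the anticanonical class of the nine points with prescribed small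
multiplicities at the other points; the system is restricted successively to such curves.
-/

namespace Pool.Agent.Results.MP_cfebfb_ag.SelfIntersectionCriterion

open MvPolynomial Pool.Agent.TH167.SHDefs

/-- The property holds for all `n`-tuples of points outside some hypersurface. -/
def ForGeneral {n : ℕ} (p : (Fin n → Fin 2 → ℂ) → Prop) : Prop :=
  ∃ F : MvPolynomial (Fin n × Fin 2) ℂ, F ≠ 0 ∧ ∀ P : Fin n → Fin 2 → ℂ,
    eval (fun ij : Fin n × Fin 2 => P ij.1 ij.2) F ≠ 0 → p P

/-- All members of the system are divisible by the square of a `(-1)`-curve. -/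
def Multiple {n : ℕ} (P : Fin n → Fin 2 → ℂ) (d : ℕ) (w : Fin n → ℕ) : Prop :=
  ∃ (G : MvPolynomial (Fin 3) ℂ) (e : ℕ) (u : Fin n → ℕ), MinusOne P G e u ∧
    ∀ f ∈ sys P d w, G ^ 2 ∣ f

/-- The class `(d; w)` is standard. -/
def Standard {n : ℕ} (d : ℕ) (w : Fin n → ℕ) : Prop :=
  ∀ i j l : Fin n, i ≠ j → i ≠ l → j ≠ l → w i + w j + w l ≤ d

open Pool.Agent.TH167.SH Pool.Agent.R355.Gen Pool.Agent.W609.CR in
theorem independent_of {n : ℕ} (d : ℕ) (w : Fin n → ℕ) (h : ∀ P : Fin n → Fin 2 → ℂ,
      AlgebraicIndependent ℚ (fun ij : Fin n × Fin 2 => P ij.1 ij.2) →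
        (Module.finrank ℂ ↥(VS (fun j => aff (P j)) w d) : ℤ) = chi d w) :
    ForGeneral fun P => dimL P d w = virtdim d w := by
  obtain ⟨F, hF, h1⟩ := (gen_iff d w (chi d w)).2 fun P hP => by
    rw [sys_eq]
    exact h P hP
  refine ⟨F, hF, fun P hP => ?_⟩
  have h2 := h1 P hP
  rw [sys_eq] at h2
  show dimL P d w = virtdim d w
  rw [dimL_eq, virtdim_eq, h2]

open Pool.Agent.TH167.SH Pool.Agent.R355 Pool.Agent.W609.CR in
theorem result :
    -- (1) all classes of large self-intersection
    (∀ (n : ℕ) (T : Finset (Fin n)), T.card = 9 → ∀ (d : ℕ) (w : Fin n → ℕ),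
      63 * ((∑ j ∈ Tᶜ, w j : ℕ) : ℤ) ^ 2 ≤ inter d w d w →
        ForGeneral fun P => (Pool.Agent.TH167.SHDefs.Special P d w → Multiple P d w) ∧
          (Pool.Agent.TH167.SHDefs.Special P d w ↔ MinusOneSpecial P d w)) ∧
    -- (2) standard classes
    (∀ (n : ℕ) (T : Finset (Fin n)), T.card = 9 → ∀ (d : ℕ) (w : Fin n → ℕ), Standard d w →
      63 * (∑ j ∈ Tᶜ, w j) ^ 2 + ∑ i ∈ T, w i ^ 2 ≤ d ^ 2 →
        ForGeneral fun P => dimL P d w = virtdim d w) := by
  classical
  have hn9 : ∀ {n : ℕ} {T : Finset (Fin n)}, T.card = 9 → ∃ r, n = r + 4 := by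
    intro n T hT
    have h1 := Finset.card_le_univ T
    rw [Fintype.card_fin, hT] at h1
    exact ⟨n - 4, by omega⟩
  refine ⟨fun n T hT d w hq => ?_, fun n T hT d w hs hq => ?_⟩
  · obtain ⟨r, rfl⟩ := hn9 hT
    rw [inter_eq] at hq
    obtain ⟨F, hF, h⟩ := Nine.hh_sq hT d w hq
    obtain ⟨F', hF', h'⟩ := Pool.Agent.TH167.TT.inj_fam (r + 4)
    refine ⟨(F * F').map (algebraMap ℚ ℂ), map_ne (mul_ne_zero hF hF'), fun P hP => ?_⟩
    rw [evP_eval, map_mul] at hP
    have hinj := h' ℂ P (right_ne_zero_of_mul hP)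
    have hiff : Pool.Agent.TH167.SHDefs.Special P d w ↔ MinusOneSpecial P d w := by
      rw [special_conv, mspecial_conv]
      exact ⟨h ℂ P (left_ne_zero_of_mul hP), fun h1 => h1.special⟩
    refine ⟨fun hsp => ?_, hiff⟩
    obtain ⟨G, e, u, hG, hGe⟩ := mspecial_curve (hiff.1 hsp)
    exact ⟨G, e, u, hG, fun f hf => curve_sq_dvd hinj hG hGe hf⟩
  · obtain ⟨r, rfl⟩ := hn9 hT
    refine independent_of d w fun P hP => Nine.nine_sq hP hT hs ?_
    have h1 : ∑ i ∈ T, w i * w i = ∑ i ∈ T, w i ^ 2 :=
      Finset.sum_congr rfl fun i _ => (sq _).symm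
    rw [h1, ← sq]
    exact hq

end Pool.Agent.Results.MP_cfebfb_ag.SelfIntersectionCriterion
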