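import Pool.Agent.R66.BX.Win

set_option autoImplicit false

/-!
# Segre's conjecture outside of a short window of degrees, for five arbitrary multiplicities

Let `m ≥ 1`, let `v 1, …, v r ≤ m` be any number of multiplicities, and let `a 1, …, a 5` be five
arbitrary ones. Let `α` be the least number with `a i + a j ≤ α + 1` for `i ≠ j` and
`a 1 + … + a 5 ≤ 2 α + 1`. For general points of the complex projective plane Segre's conjecture (a
special system has a multiple fixed component) holds for the systems of degree `d` with these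
`r + 5` multiplicities in all degrees `d`, except possibly if `α ≤ d < α + 2 m ^ 2 + 4 m + 3`. The
length of this window depends neither on the number `r` of the points nor on the five arbitrary
multiplicities.
-/

namespace Pool.Agent.Results.MP_cfebfb_ag.ShortDegreeWindow

open MvPolynomial Pool.Agent.TH167

/-- Segre's conjecture for the class `(d; w)`, for all points outside of a hypersurface defined over
the rationals: if the system is special, then the square of a form of positive degree divides all
its elements. -/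
def Segre {n : ℕ} (d : ℕ) (w : Fin n → ℕ) : Prop :=
  ∃ F : MvPolynomial (Fin n × Fin 2) ℚ, F ≠ 0 ∧ ∀ P : Fin n → Fin 2 → ℂ,
    MvPolynomial.aeval (fun ij : Fin n × Fin 2 => P ij.1 ij.2) F ≠ 0 →
      SHDefs.Special P d w →
        ∃ G : MvPolynomial (Fin 3) ℂ, 0 < G.totalDegree ∧ ∀ f ∈ SHDefs.sys P d w, G ^ 2 ∣ f

/-- **Main result.** -/
theorem result (m r : ℕ) (hm : 1 ≤ m) (v : Fin r → ℕ) (hv : ∀ i, v i ≤ m) (a : Fin 5 → ℕ) (α : ℕ)
    (hα : IsLeast {x : ℕ | (∀ i j, i ≠ j → a i + a j ≤ x + 1) ∧ ∑ i, a i ≤ 2 * x + 1} α) (d : ℕ)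
    (hd : d < α ∨ α + (2 * m ^ 2 + 4 * m + 3) ≤ d) : Segre d (Fin.append v a) := by
  obtain ⟨⟨h1, h2⟩, hmin⟩ := hα
  have h3 : d < α → (∃ i j, i ≠ j ∧ d + 2 ≤ a i + a j) ∨ 2 * d + 2 ≤ ∑ i, a i := by
    intro hd
    by_contra hcon
    push Not at hcon
    have h4 : α ≤ d := hmin ⟨fun i j hij => by
      have := hcon.1 i j hij
      omega, by omega⟩
    omega
  have key : Pool.Agent.R66.BX.Five.ForGeneral
      (Pool.Agent.R66.BX.Win.CurveAt d (Fin.append v a)) := by
    apply Pool.Agent.R66.BX.Win.cur_of hm hv a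
    rcases hd with hd | hd
    · rcases h3 hd with ⟨i, j, hij, h⟩ | h
      · left
        rcases lt_or_gt_of_ne hij with h4 | h4
        · exact ⟨i, j, h4, by omega⟩
        · exact ⟨j, i, h4, by omega⟩
      · right
        left
        exact h
    · right
      right
      refine ⟨fun i j hij => ?_, by omega⟩
      have := h1 i j hij.ne
      omega
  obtain ⟨F, hF, h⟩ := key.and (Pool.Agent.R66.BX.Five.inj_gen (r + 5))
  refine ⟨F, hF, fun P hP hs => ?_⟩
  obtain ⟨h4, h5⟩ := h P hP
  obtain ⟨G, e, u, hG, hi⟩ := h4 hs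
  exact Pool.Agent.R66.BX.FinExc.square_fixed h5 hG hi

end Pool.Agent.Results.MP_cfebfb_ag.ShortDegreeWindow
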