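import Pool.Agent.R873.SB.Two

set_option autoImplicit false

/-!
# Segre's conjecture: the special systems with given multiplicities lie in a short interval of degrees

Let `m` be any vector of multiplicities `m i ≤ μ`, of any length `h`, and let the points be general (a
nonempty Zariski open set depending only on `m`). Consider the degrees `d` in which the linear system
of the curves of degree `d` with multiplicities `m` is special, the only ones in which the
implication of Segre's conjecture has a content.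

(1) If `d ≤ d'` are two of them, then `(d' - d) (d + d' + 3) + ∑ m i < 25000 (μ + 1) ^ 2`; so they lie in
an interval of length less than `159 (μ + 1)`, and there are at most `159 (μ + 1)` of them.

(2) Each of them satisfies `(d + 1) ^ 2 < 25000 (μ + 1) ^ 3`, and the superabundance
`dim L - vdim L` is at most `6409 (μ + 1) ^ 2`.

(3) The order `μ` of the number of the degrees is the right one: if exactly two of the `m i` are equal
to `μ` and the others are `0`, then the system is special in the `μ - 1` degrees `μ, …, 2 μ - 2`.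
-/

namespace Pool.Agent.Results.MP_cfebfb_ag.SpecialDegrees

open MvPolynomial Pool.Agent.TH167.SHDefs Pool.Agent.R873.SB

theorem special_iff {h : ℕ} (P : Fin h → Fin 2 → ℂ) (d : ℕ) (m : Fin h → ℕ) :
    Special P d m ↔ (Module.finrank ℂ ↥(sys P d m) : ℤ) ≠ max 0 (chi d m) := by
  have h1 : virtdim d m = chi d m - 1 := by
    unfold virtdim chi
    ring
  unfold Special dimL
  rw [h1]
  constructor
  · intro h2 h3
    apply h2
    omega
  · intro h2 h3
    apply h2
    omega

/-- **Main result.** -/
theorem result (h μ : ℕ) (m : Fin h → ℕ) (hm : ∀ i, m i ≤ μ) :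
    ∃ Q : MvPolynomial (Fin h × Fin 2) ℂ, Q ≠ 0 ∧
      ∀ P : Fin h → Fin 2 → ℂ,
        MvPolynomial.eval (fun ij : Fin h × Fin 2 => P ij.1 ij.2) Q ≠ 0 →
        (∀ d d' : ℕ, d ≤ d' → Special P d m → Special P d' m →
          ((d' : ℤ) - d) * (d + d' + 3) + ∑ i, (m i : ℤ) < 25000 * ((μ : ℤ) + 1) ^ 2 ∧
          d' < d + 159 * (μ + 1)) ∧
        {d : ℕ | Special P d m}.Finite ∧ {d : ℕ | Special P d m}.ncard ≤ 159 * (μ + 1) ∧
        (∀ d : ℕ, Special P d m →
          ((d : ℤ) + 1) ^ 2 < 25000 * ((μ : ℤ) + 1) ^ 3 ∧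
          dimL P d m - virtdim d m ≤ 6409 * ((μ : ℤ) + 1) ^ 2) ∧
        ((∃ i j, i ≠ j ∧ ∀ l, m l = if l = i ∨ l = j then μ else 0) →
          ∀ d, μ ≤ d → d + 2 ≤ 2 * μ → Special P d m) := by
  classical
  obtain ⟨F, hF, hF'⟩ := exists_open m
  -- distinct points
  obtain ⟨D, hD⟩ : ∃ D : MvPolynomial (Fin h × Fin 2) ℂ,
      D = ∏ p : Fin h × Fin h, if p.1 = p.2 then 1 else X (p.1, 0) - X (p.2, 0) := ⟨_, rfl⟩
  have hD0 : D ≠ 0 := by
    rw [hD]
    refine Finset.prod_ne_zero_iff.2 fun p _ => ?_
    split_ifs with hp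
    · exact one_ne_zero
    · intro h0
      have h1 : (X (p.1, 0) : MvPolynomial (Fin h × Fin 2) ℂ) = X (p.2, 0) := sub_eq_zero.1 h0
      exact hp (congrArg Prod.fst (X_injective h1))
  have hmap : F.map (algebraMap ℚ ℂ) ≠ 0 := fun h0 => hF (MvPolynomial.map_injective
    (algebraMap ℚ ℂ) (algebraMap ℚ ℂ).injective (by rw [h0, map_zero]))
  refine ⟨F.map (algebraMap ℚ ℂ) * D, mul_ne_zero hmap hD0, fun P hP => ?_⟩
  rw [map_mul] at hP
  have hP1 := left_ne_zero_of_mul hP
  have hP2 := right_ne_zero_of_mul hP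
  rw [MvPolynomial.eval_map] at hP1
  have hok : Ok P m := hF' P hP1
  have key : ∀ d d' : ℕ, d ≤ d' → Special P d m → Special P d' m →
      ((d' : ℤ) - d) * (d + d' + 3) + ∑ i, (m i : ℤ) < 25000 * ((μ : ℤ) + 1) ^ 2 ∧
      d' < d + 159 * (μ + 1) := by
    intro d d' hdd h1 h2
    have h3 := special_degrees hok hm ((special_iff P d m).1 h1) ((special_iff P d' m).1 h2) hdd
    refine ⟨h3, ?_⟩
    by_contra hcon
    push Not at hcon
    have h4 : (d : ℤ) + 159 * ((μ : ℤ) + 1) ≤ d' := by exact_mod_cast hcon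
    have h5 : (0 : ℤ) ≤ ∑ i, (m i : ℤ) := Finset.sum_nonneg fun i _ => Int.natCast_nonneg _
    have h6 : (0 : ℤ) ≤ μ := Int.natCast_nonneg _
    have h7 : (0 : ℤ) ≤ d := Int.natCast_nonneg _
    have h8 : (159 * ((μ : ℤ) + 1)) * (159 * ((μ : ℤ) + 1)) ≤
        ((d' : ℤ) - d) * (d + d' + 3) := by
      apply mul_le_mul (by linarith) (by linarith) (by positivity) (by linarith)
    nlinarith
  have hfin : {d : ℕ | Special P d m}.Finite := by
    rcases Set.eq_empty_or_nonempty {d : ℕ | Special P d m} with h0 | ⟨d0, h0⟩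
    · rw [h0]
      exact Set.finite_empty
    · refine (Set.finite_Iic (d0 + 159 * (μ + 1))).subset fun d hd => ?_
      rcases le_total d0 d with hle | hle
      · exact (key d0 d hle h0 hd).2.le
      · exact hle.trans (Nat.le_add_right _ _)
  refine ⟨key, hfin, ?_, fun d hd => ?_, ?_⟩
  · rcases Set.eq_empty_or_nonempty {d : ℕ | Special P d m} with h0 | hne
    · rw [h0, Set.ncard_empty]
      exact Nat.zero_le _
    · obtain ⟨a, ha, hmin⟩ := hfin.exists_minimal hne
      have hsub : {d : ℕ | Special P d m} ⊆ (Finset.Ico a (a + 159 * (μ + 1)) : Set ℕ) := by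
        intro d hd
        rw [Finset.coe_Ico, Set.mem_Ico]
        rcases le_total a d with hle | hle
        · exact ⟨hle, (key a d hle ha hd).2⟩
        · have h3 := hmin hd hle
          have h4 : a = d := le_antisymm h3 hle
          subst h4
          exact ⟨le_rfl, by omega⟩
      refine (Set.ncard_le_ncard hsub (Finset.finite_toSet _)).trans ?_
      rw [Set.ncard_coe_finset, Nat.card_Ico]
      omega
  · have h1 := (special_iff P d m).1 hd
    refine ⟨deg_bound hm (small_of_special hok hm h1), ?_⟩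
    have h2 := hone_bound hok d μ hm h1
    have h3 : virtdim d m = chi d m - 1 := by
      unfold virtdim chi
      ring
    rw [h3]
    unfold dimL
    linarith
  · rintro ⟨i, j, hij, hml⟩ d hd1 hd2
    have hne : P i ≠ P j := by
      intro h0
      apply hP2
      rw [hD, map_prod]
      refine Finset.prod_eq_zero (Finset.mem_univ (i, j)) ?_
      rw [if_neg hij, map_sub, eval_X, eval_X]
      show P i 0 - P j 0 = 0
      rw [h0, sub_self]
    have hm2 : m = two i j μ := by
      funext l
      rw [hml l]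
      rfl
    obtain ⟨t, N, rfl, h2, rfl⟩ : ∃ t N : ℕ, μ = t + N ∧ 2 ≤ N ∧ d = 2 * t + N :=
      ⟨d - μ, 2 * μ - d, by omega, by omega, by omega⟩
    rw [special_iff, hm2]
    exact two_special hne t N h2

end Pool.Agent.Results.MP_cfebfb_ag.SpecialDegrees
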